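import Pool.Agent.Y749.Rig.FFf
import Pool.Agent.H345R2.CT.D
import Pool.Agent.H177R3.LatD
import Pool.Agent.W54.TCF.NT

/-! # Sums over pairs of zeros as sums over pairs of indices -/

set_option autoImplicit false

open MeasureTheory Set Filter Topology
open Complex (I)

namespace Pool.Agent.Y763.AH

open Pool.Agent.Y749.Rig
open SG (ord NZ zmult ZS)
open H370 (mult)

lemma line (hRH : RiemannHypothesis) {T : ℝ} {s : ℂ} (hs : s ∈ ZZ T) :
    (1 / 2 + I * s.im : ℂ) = s ∧ 0 < s.im ∧ s.im ≤ T ∧ riemannZeta (1 / 2 + I * s.im) = 0 := by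
  rw [mem_ZZ] at hs
  have h3 := zs_im_pos hs
  obtain ⟨a5, a1, a2, a3, a4⟩ := hs
  have h1 : s.re = 1 / 2 := by
    apply hRH s a5
    · rintro ⟨k, hk⟩
      have := congrArg Complex.re hk
      simp at this
      have hk0 : (0 : ℝ) ≤ k := Nat.cast_nonneg k
      linarith
    · rintro rfl
      simp at h3
  have h2 : (1 / 2 + I * s.im : ℂ) = s := by
    apply Complex.ext
    · simp [h1]
    · simp
  exact ⟨h2, h3, a4, by rw [h2]; exact a5⟩

theorem sum_idx (hRH : RiemannHypothesis) (T : ℝ) (f : ℝ → ℝ) :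
    ∑ s ∈ ZZ T, mm s * f s.im = ∑ n ∈ Finset.Ioc 0 (NZ T), f (ord n) := by
  classical
  obtain ⟨Z, hZ⟩ : ∃ Z : Finset ℂ, Z = ZZ T := ⟨_, rfl⟩
  rw [← hZ]
  have hl : ∀ s ∈ Z, (1 / 2 + I * s.im : ℂ) = s ∧ 0 < s.im ∧ s.im ≤ T ∧
      riemannZeta (1 / 2 + I * s.im) = 0 := fun s hs => line hRH (by rw [← hZ]; exact hs)
  obtain ⟨J, hJ⟩ : ∃ J : ℂ → Finset ℕ, ∀ s, J s = Finset.Ioc (NZ s.im - zmult s) (NZ s.im) :=
    ⟨_, fun s => rfl⟩
  have hmle : ∀ s ∈ Z, zmult s ≤ NZ s.im := by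
    intro s hs
    obtain ⟨h1, h2, h3, h4⟩ := hl s hs
    have := LG.CU.mult_le_NZ h2 h4
    rw [h1] at this
    exact this
  have hcard : ∀ s ∈ Z, (J s).card = zmult s := by
    intro s hs
    have := hmle s hs
    rw [hJ, Nat.card_Ioc]
    omega
  have hJord : ∀ s ∈ Z, ∀ n ∈ J s, 1 ≤ n ∧ ord n = s.im := by
    intro s hs n hn
    rw [hJ, Finset.mem_Ioc] at hn
    have h0 := hmle s hs
    obtain ⟨h1, h2, h3, h4⟩ := hl s hs
    have hn1 : 1 ≤ n := by omega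
    exact ⟨hn1, LG.CU.ord_eq_of h2 h4 (by rw [h1]; omega) hn.2 hn1⟩
  have hdisj : (Z : Set ℂ).PairwiseDisjoint J := by
    intro s hs s' hs' hne
    rw [Function.onFun, Finset.disjoint_left]
    intro n hn hn'
    have e1 := (hJord s hs n hn).2
    have e2 := (hJord s' hs' n hn').2
    apply hne
    rw [← (hl s hs).1, ← (hl s' hs').1, ← e1, ← e2]
  have hsub : Z.biUnion J ⊆ Finset.Ioc 0 (NZ T) := by
    intro n hn
    rw [Finset.mem_biUnion] at hn
    obtain ⟨s, hs, hn⟩ := hn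
    obtain ⟨g1, g2, g3, g4⟩ := hl s hs
    obtain ⟨h1, h2⟩ := hJord s hs n hn
    rw [Finset.mem_Ioc]
    exact ⟨h1, (SG.ord_le_iff h1 T).mp (by rw [h2]; exact g3)⟩
  have hZS : Z = (SG.ZS_finite T).toFinset := by
    ext s
    rw [hZ, mem_ZZ, Set.Finite.mem_toFinset]
    constructor
    · intro h
      exact ⟨h.1, h.2.1, h.2.2.1, zs_im_pos h, h.2.2.2.2⟩
    · intro h
      exact ⟨h.1, h.2.1, h.2.2.1, h.2.2.2.1.le, h.2.2.2.2⟩
  have hcardU : (Z.biUnion J).card = NZ T := by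
    rw [Finset.card_biUnion hdisj, SG.NZ_eq, ← hZS]
    exact Finset.sum_congr rfl hcard
  have hU : Z.biUnion J = Finset.Ioc 0 (NZ T) := by
    apply Finset.eq_of_subset_of_card_le hsub
    rw [hcardU, Nat.card_Ioc, Nat.sub_zero]
  rw [← hU, Finset.sum_biUnion hdisj]
  refine Finset.sum_congr rfl fun s hs => ?_
  rw [Finset.sum_congr rfl (fun n hn => by rw [(hJord s hs n hn).2] : ∀ n ∈ J s, f (ord n) = f s.im),
    Finset.sum_const, hcard s hs, nsmul_eq_mul]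
  rfl

theorem sum_idx2 (hRH : RiemannHypothesis) (T : ℝ) (f : ℝ → ℝ → ℝ) :
    ∑ s ∈ ZZ T, ∑ s' ∈ ZZ T, mm s * mm s' * f s.im s'.im =
      ∑ n ∈ Finset.Ioc 0 (NZ T), ∑ n' ∈ Finset.Ioc 0 (NZ T), f (ord n) (ord n') := by
  have h1 : ∀ s ∈ ZZ T, ∑ s' ∈ ZZ T, mm s * mm s' * f s.im s'.im =
      mm s * ∑ n' ∈ Finset.Ioc 0 (NZ T), f s.im (ord n') := by
    intro s _
    rw [← sum_idx hRH T (fun x => f s.im x), Finset.mul_sum]
    refine Finset.sum_congr rfl fun s' _ => ?_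
    ring
  rw [Finset.sum_congr rfl h1]
  exact sum_idx hRH T (fun x => ∑ n' ∈ Finset.Ioc 0 (NZ T), f x (ord n'))

/-- the sum over the pairs `n < n'` -/
noncomputable def PS (f : ℕ → ℕ → ℝ) (N : ℕ) : ℝ :=
  ∑ j ∈ Finset.Ico 1 N, ∑ n ∈ Finset.Ioc 0 (N - j), f n (n + j)

lemma PS_succ (f : ℕ → ℕ → ℝ) (N : ℕ) :
    PS f (N + 1) = PS f N + ∑ n ∈ Finset.Ioc 0 N, f n (N + 1) := by
  unfold PS
  have h1 : ∀ j ∈ Finset.Ico 1 (N + 1), ∑ n ∈ Finset.Ioc 0 (N + 1 - j), f n (n + j) =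
      (∑ n ∈ Finset.Ioc 0 (N - j), f n (n + j)) + f (N + 1 - j) (N + 1) := by
    intro j hj
    rw [Finset.mem_Ico] at hj
    obtain ⟨m, hm⟩ : ∃ m : ℕ, N = m + j := ⟨N - j, by omega⟩
    have e1 : N + 1 - j = m + 1 := by omega
    have e2 : N - j = m := by omega
    rw [e1, e2, Finset.sum_Ioc_succ_top (Nat.zero_le m)]
    congr 2
    omega
  rw [Finset.sum_congr rfl h1, Finset.sum_add_distrib]
  congr 1
  · rcases Nat.eq_zero_or_pos N with h0 | h0
    · subst h0; simp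
    · rw [Finset.sum_Ico_succ_top h0]
      simp
  · refine Finset.sum_bij (fun j _ => N + 1 - j) ?_ ?_ ?_ ?_
    · intro j hj
      rw [Finset.mem_Ico] at hj
      rw [Finset.mem_Ioc]
      omega
    · intro a ha b hb hab
      rw [Finset.mem_Ico] at ha hb
      have hab2 : N + 1 - a = N + 1 - b := hab
      omega
    · intro b hb
      rw [Finset.mem_Ioc] at hb
      exact ⟨N + 1 - b, by rw [Finset.mem_Ico]; omega, by show N + 1 - (N + 1 - b) = b; omega⟩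
    · intro j hj
      rfl

/-- diagonal and pairs -/
lemma full_sum (f : ℕ → ℕ → ℝ) (hs : ∀ n n', f n n' = f n' n) (N : ℕ) :
    ∑ n ∈ Finset.Ioc 0 N, ∑ n' ∈ Finset.Ioc 0 N, f n n' =
      (∑ n ∈ Finset.Ioc 0 N, f n n) + 2 * PS f N := by
  induction N with
  | zero => simp [PS]
  | succ N ih =>
    rw [PS_succ, Finset.sum_Ioc_succ_top (Nat.zero_le N), Finset.sum_Ioc_succ_top (Nat.zero_le N),
      Finset.sum_Ioc_succ_top (Nat.zero_le N)]
    have h1 : ∀ n, ∑ n' ∈ Finset.Ioc 0 (N + 1), f n n' =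
        (∑ n' ∈ Finset.Ioc 0 N, f n n') + f n (N + 1) := fun n =>
      Finset.sum_Ioc_succ_top (Nat.zero_le N) _
    simp_rw [h1]
    rw [Finset.sum_add_distrib, ih]
    have h2 : ∑ n' ∈ Finset.Ioc 0 N, f (N + 1) n' = ∑ n ∈ Finset.Ioc 0 N, f n (N + 1) :=
      Finset.sum_congr rfl fun n _ => hs _ _
    rw [h2]
    ring

lemma PS_mono {f g : ℕ → ℕ → ℝ} {N : ℕ} (h : ∀ n j : ℕ, 1 ≤ n → 1 ≤ j → n + j ≤ N →
    f n (n + j) ≤ g n (n + j)) : PS f N ≤ PS g N := by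
  refine Finset.sum_le_sum fun j hj => Finset.sum_le_sum fun n hn => ?_
  rw [Finset.mem_Ico] at hj
  rw [Finset.mem_Ioc] at hn
  exact h n j hn.1 hj.1 (by omega)

lemma PS_nonneg {f : ℕ → ℕ → ℝ} {N : ℕ} (h : ∀ n n', 0 ≤ f n n') : 0 ≤ PS f N :=
  Finset.sum_nonneg fun _ _ => Finset.sum_nonneg fun _ _ => h _ _

lemma PS_first {f : ℕ → ℕ → ℝ} {N : ℕ} (h : ∀ n n', 0 ≤ f n n') :
    ∑ n ∈ Finset.Ioc 0 (N - 1), f n (n + 1) ≤ PS f N := by
  rcases Nat.lt_or_ge 1 N with h1 | h1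
  · refine Finset.single_le_sum (f := fun j => ∑ n ∈ Finset.Ioc 0 (N - j), f n (n + j))
      (fun j _ => Finset.sum_nonneg fun _ _ => h _ _) ?_
    rw [Finset.mem_Ico]
    omega
  · have : N - 1 = 0 := by omega
    rw [this]
    simpa using PS_nonneg h

/-- the weighted kernel at a pair of ordinates -/
noncomputable def gw (R T x x' : ℝ) : ℝ :=
  fl (tr R) ((x - x') * Real.log T / (2 * Real.pi)) * ww (x - x')

lemma gw_symm (R T x x' : ℝ) : gw R T x x' = gw R T x' x := by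
  unfold gw
  have e1 : (x' - x) * Real.log T / (2 * Real.pi) = -((x - x') * Real.log T / (2 * Real.pi)) := by
    ring
  have e2 : ww (x' - x) = ww (x - x') := by
    unfold ww
    congr 2
    ring
  rw [e1, fl_even, e2]

lemma gw_nonneg {R : ℝ} (hR : 0 < R) (T x x' : ℝ) : 0 ≤ gw R T x x' :=
  mul_nonneg (fl_tr_nonneg hR _) (ww_pos _).le

lemma gw_diag {R : ℝ} (hR : 0 < R) (T x : ℝ) : gw R T x x = 1 := by
  unfold gw
  rw [sub_self, zero_mul, zero_div, fl_tr_zero hR, ww_zero, mul_one]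

/-- the sum over the pairs of zeros -/
noncomputable def PT (R T : ℝ) : ℝ := PS (fun n n' => gw R T (ord n) (ord n')) (NZ T)

lemma PT_nonneg {R : ℝ} (hR : 0 < R) (T : ℝ) : 0 ≤ PT R T := PS_nonneg fun _ _ => gw_nonneg hR _ _ _

/-- the pairing of the form factor with the tent -/
theorem S_eq (hRH : RiemannHypothesis) {R T : ℝ} (hR : 0 < R) (hT : 10 ≤ T) :
    ∫ α, tr R α * Fr T α = ((NZ T : ℝ) + 2 * PT R T) / nT T := by
  have hL := one_lt_log (show 3 ≤ T by linarith)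
  have hpi := Real.pi_pos
  rw [Fr_pair (tr_int hR), Mp_integral hT (fun x => fl (tr R) x * ww (2 * Real.pi * x / Real.log T))]
  congr 1
  unfold RR
  have h1 : ∀ s s' : ℂ, mm s * mm s' * (fl (tr R) ((s.im - s'.im) * Real.log T / (2 * Real.pi)) *
      ww (2 * Real.pi * ((s.im - s'.im) * Real.log T / (2 * Real.pi)) / Real.log T)) =
      mm s * mm s' * gw R T s.im s'.im := by
    intro s s'
    unfold gw
    congr 3
    field_simp
  simp_rw [h1]
  rw [sum_idx2 hRH T (fun x x' => gw R T x x'),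
    full_sum (fun n n' => gw R T (ord n) (ord n')) (fun n n' => gw_symm _ _ _ _)]
  congr 1
  rw [Finset.sum_congr rfl fun n _ => gw_diag hR T (ord n)]
  simp

/-- the number of zeros -/
theorem NZ_lim : Tendsto (fun T => (NZ T : ℝ) / nT T) atTop (𝓝 1) := by
  have hNN : ∀ T, NZ T = H370.NN riemannZeta 0 T := by
    intro T
    unfold SG.NZ H370.NN
    refine finsum_mem_congr ?_ fun s _ => rfl
    ext s
    simp only [H370.zset, Set.mem_ofPred_eq]
    tauto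
  rw [Metric.tendsto_nhds]
  intro ε hε
  obtain ⟨T0, hT0, h⟩ := Pool.Agent.W54.TCF.NT_asymp' (ε / 2) (by positivity)
  filter_upwards [eventually_ge_atTop T0] with T hT
  obtain ⟨h1, h2⟩ := h T hT
  have hn := nT_pos (hT0.trans hT)
  have e : T / (2 * Real.pi) * Real.log T = nT T := by unfold nT; ring
  rw [e] at h1 h2
  rw [Real.dist_eq, hNN, abs_lt]
  constructor
  · rw [lt_sub_iff_add_lt, lt_div_iff₀ hn]
    nlinarith
  · rw [sub_lt_iff_lt_add, div_lt_iff₀ hn]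
    nlinarith

end Pool.Agent.Y763.AH
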