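import Pool.Agent.Y763.AH.A

/-! # The form factor near the origin against a linear weight -/

set_option autoImplicit false

open MeasureTheory Set Filter Topology
open Complex (I)

namespace Pool.Agent.Y763.AH

open Pool.Agent.Y749.Rig

lemma cc_tent {h : ℝ} (hh : 0 < h) : h ^ 2 * cc (tr h) = h + h ^ 3 / 3 := by
  have hc : Continuous fun α : ℝ => |α| * tr h α := by
    have := tr_cont h
    fun_prop
  have h1 : ∫ α : ℝ, |α| * tr h α = 2 * ∫ α in (0 : ℝ)..h, |α| * tr h α := by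
    rw [int_supp hh (fun x hx => by rw [tr_supp hh x hx, mul_zero]),
      ← intervalIntegral.integral_add_adjacent_intervals (b := 0) (hc.intervalIntegrable _ _)
      (hc.intervalIntegrable _ _)]
    have h2 := intervalIntegral.integral_comp_neg (a := (0 : ℝ)) (b := h)
      (fun α : ℝ => |α| * tr h α)
    rw [neg_zero] at h2
    rw [← h2]
    have h3 : ∫ α in (0 : ℝ)..h, |(-α)| * tr h (-α) = ∫ α in (0 : ℝ)..h, |α| * tr h α := by
      refine intervalIntegral.integral_congr fun α _ => ?_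
      show |(-α)| * tr h (-α) = |α| * tr h α
      rw [abs_neg, tr_even]
    rw [h3]
    ring
  have h4 : ∫ α in (0 : ℝ)..h, |α| * tr h α = ∫ α in (0 : ℝ)..h, (1 / h * α - 1 / h ^ 2 * α ^ 2) := by
    refine intervalIntegral.integral_congr fun α hα => ?_
    rw [uIcc_of_le hh.le] at hα
    show |α| * tr h α = 1 / h * α - 1 / h ^ 2 * α ^ 2
    rw [tr_eq hh hα.1 hα.2, abs_of_nonneg hα.1]
    field_simp
  have e1 : tr h 0 = 1 / h := by unfold tr; simp
  unfold cc
  rw [h1, h4, e1, intervalIntegral.integral_sub (by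
    apply Continuous.intervalIntegrable; fun_prop) (by
    apply Continuous.intervalIntegrable; fun_prop), intervalIntegral.integral_const_mul,
    intervalIntegral.integral_const_mul, integral_id, integral_pow]
  field_simp
  ring

lemma tent_RH (RH : RiemannHypothesis) {h : ℝ} (hh : 0 < h) (h1 : h < 1) :
    Tendsto (fun T => ∫ α, max 0 (h - |α|) * Fr T α) atTop (𝓝 (h + h ^ 3 / 3)) := by
  have h2 := (Fr_lim (tr_int hh) (fl_qd (adm_tr hh)) le_rfl
    (test_limRH RH (adm_tr hh) hh h1)).const_mul (h ^ 2)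
  rw [cc_tent hh] at h2
  refine h2.congr fun T => ?_
  rw [← integral_const_mul]
  refine integral_congr_ae (ae_of_all _ fun α => ?_)
  simp only
  rw [← tent_eq hh]
  ring

/-- the trapezoid: equal to `R - |α|` on `[-k, k]`, linear up to `k + δ` -/
noncomputable def Vt (R k δ α : ℝ) : ℝ :=
  (R - k) / δ * max 0 (k + δ - |α|) + (1 - (R - k) / δ) * max 0 (k - |α|)

lemma Vt_cont (R k δ : ℝ) : Continuous (Vt R k δ) := by
  unfold Vt
  fun_prop

lemma Vt_in {R k δ α : ℝ} (hδ : 0 < δ) (h : |α| ≤ k) : Vt R k δ α = R - |α| := by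
  unfold Vt
  rw [max_eq_right (by linarith), max_eq_right (by linarith)]
  field_simp
  ring

lemma Vt_mid {R k δ α : ℝ} (h : k ≤ |α|) : Vt R k δ α = (R - k) / δ * max 0 (k + δ - |α|) := by
  unfold Vt
  rw [max_eq_left (by linarith : k - |α| ≤ 0)]
  ring

lemma Vt_out {R k δ α : ℝ} (hδ : 0 < δ) (h : k + δ ≤ |α|) : Vt R k δ α = 0 := by
  rw [Vt_mid (by linarith), max_eq_left (by linarith), mul_zero]

lemma Vt_nonneg {R k δ : ℝ} (hδ : 0 < δ) (hk : k ≤ R) (α : ℝ) : 0 ≤ Vt R k δ α := by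
  rcases le_total |α| k with h | h
  · rw [Vt_in hδ h]; linarith
  · rw [Vt_mid h]
    exact mul_nonneg (div_nonneg (by linarith) hδ.le) (le_max_left _ _)

lemma Vt_le {R k δ α : ℝ} (hδ : 0 < δ) (hk : k + δ ≤ R) (h : |α| ≤ k + δ) :
    Vt R k δ α ≤ R - |α| := by
  rcases le_total |α| k with h1 | h1
  · rw [Vt_in hδ h1]
  · rw [Vt_mid h1, max_eq_right (by linarith), div_mul_eq_mul_div, div_le_iff₀ hδ]
    nlinarith

/-- the value of the limit for the trapezoid -/
noncomputable def Ph (R k δ : ℝ) : ℝ := R + k ^ 3 / 3 + (R - k) * (3 * k ^ 2 + 3 * k * δ + δ ^ 2) / 3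

lemma Vt_lim (RH : RiemannHypothesis) {R k δ : ℝ} (hk : 0 < k) (hδ : 0 < δ) (h1 : k + δ < 1) :
    Tendsto (fun T => ∫ α, Vt R k δ α * Fr T α) atTop (𝓝 (Ph R k δ)) := by
  have t1 := (tent_RH RH (h := k + δ) (by linarith) h1).const_mul ((R - k) / δ)
  have t2 := (tent_RH RH (h := k) hk (by linarith)).const_mul (1 - (R - k) / δ)
  have t3 := t1.add t2
  have e1 : (R - k) / δ * (k + δ + (k + δ) ^ 3 / 3) + (1 - (R - k) / δ) * (k + k ^ 3 / 3) =
      Ph R k δ := by
    unfold Ph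
    field_simp
    ring
  rw [e1] at t3
  refine t3.congr fun T => ?_
  have i1 := (tent_integrable (k + δ) (Fr_cont T)).const_mul ((R - k) / δ)
  have i2 := (tent_integrable k (Fr_cont T)).const_mul (1 - (R - k) / δ)
  rw [← integral_const_mul, ← integral_const_mul, ← integral_add i1 i2]
  refine integral_congr_ae (ae_of_all _ fun α => ?_)
  simp only
  unfold Vt
  ring

/-- the part of the pairing near the origin -/
theorem A_lim (RH : RiemannHypothesis) {R κ : ℝ} (hR : 1 ≤ R) (hκ : 0 < κ) (hκ1 : κ < 1) :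
    Tendsto (fun T => ∫ α in (-κ)..κ, (R - |α|) * Fr T α) atTop
      (𝓝 (R + R * κ ^ 2 - 2 * κ ^ 3 / 3)) := by
  obtain ⟨A, hA⟩ : ∃ A : ℝ, A = R + R * κ ^ 2 - 2 * κ ^ 3 / 3 := ⟨_, rfl⟩
  rw [← hA, Metric.tendsto_nhds]
  intro ε hε
  -- choice of δ
  obtain ⟨δ, hδ0, hδκ, hδ1, hp1, hp2⟩ : ∃ δ : ℝ, 0 < δ ∧ δ < κ ∧ κ + δ < 1 ∧
      Ph R κ δ < A + ε / 2 ∧ A - ε / 2 < Ph R (κ - δ) δ := by
    have c1 : Tendsto (fun δ : ℝ => Ph R κ δ) (𝓝[>] 0) (𝓝 (Ph R κ 0)) := by
      have : Continuous fun δ : ℝ => Ph R κ δ := by unfold Ph; fun_prop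
      exact (this.tendsto 0).mono_left nhdsWithin_le_nhds
    have c2 : Tendsto (fun δ : ℝ => Ph R (κ - δ) δ) (𝓝[>] 0) (𝓝 (Ph R (κ - 0) 0)) := by
      have : Continuous fun δ : ℝ => Ph R (κ - δ) δ := by unfold Ph; fun_prop
      exact (this.tendsto 0).mono_left nhdsWithin_le_nhds
    have e1 : Ph R κ 0 = A := by rw [hA]; unfold Ph; ring
    have e2 : Ph R (κ - 0) 0 = A := by rw [sub_zero, e1]
    rw [e1] at c1
    rw [e2] at c2
    have v1 : ∀ᶠ δ : ℝ in 𝓝[>] 0, Ph R κ δ < A + ε / 2 := c1.eventually (gt_mem_nhds (by linarith))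
    have v2 : ∀ᶠ δ : ℝ in 𝓝[>] 0, A - ε / 2 < Ph R (κ - δ) δ :=
      c2.eventually (lt_mem_nhds (by linarith))
    have v3 : ∀ᶠ δ : ℝ in 𝓝[>] 0, 0 < δ := eventually_nhdsWithin_of_forall fun _ h => h
    have v4 : ∀ᶠ δ : ℝ in 𝓝[>] 0, δ < min κ (1 - κ) :=
      nhdsWithin_le_nhds (gt_mem_nhds (lt_min hκ (by linarith)))
    obtain ⟨δ, h1, h2, h3, h4⟩ := (v1.and (v2.and (v3.and v4))).exists
    exact ⟨δ, h3, h4.trans_le (min_le_left _ _), by
      have := h4.trans_le (min_le_right _ _)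
      linarith, h1, h2⟩
  have t1 := (Vt_lim RH (R := R) hκ hδ0 hδ1).eventually (gt_mem_nhds
    (show Ph R κ δ < A + ε / 2 from hp1))
  have t2 := (Vt_lim RH (R := R) (k := κ - δ) (by linarith) hδ0 (by linarith)).eventually
    (lt_mem_nhds (show A - ε / 2 < Ph R (κ - δ) δ from hp2))
  filter_upwards [t1, t2, eventually_ge_atTop 10] with T h1 h2 hT
  have hF0 := Fr_nonneg hT
  have hFc := Fr_cont T
  have ci : ∀ {g : ℝ → ℝ}, Continuous g → ∀ p q : ℝ, IntervalIntegrable g volume p q :=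
    fun hg p q => hg.intervalIntegrable p q
  have cV : ∀ k : ℝ, Continuous fun α => Vt R k δ α * Fr T α := fun k => (Vt_cont R k δ).mul hFc
  have cA : Continuous fun α : ℝ => (R - |α|) * Fr T α := by fun_prop
  have up : ∫ α in (-κ)..κ, (R - |α|) * Fr T α ≤ ∫ α, Vt R κ δ α * Fr T α := by
    rw [int_supp (h := κ + δ) (by linarith) (fun x hx => by rw [Vt_out hδ0 hx, zero_mul])]
    have e1 : ∫ α in (-κ)..κ, (R - |α|) * Fr T α = ∫ α in (-κ)..κ, Vt R κ δ α * Fr T α := by
      refine intervalIntegral.integral_congr fun α hα => ?_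
      rw [uIcc_of_le (by linarith)] at hα
      show (R - |α|) * Fr T α = Vt R κ δ α * Fr T α
      rw [Vt_in hδ0 (abs_le.2 hα)]
    rw [e1]
    refine intervalIntegral.integral_mono_interval (by linarith) (by linarith) (by linarith)
      (ae_of_all _ fun α => mul_nonneg (Vt_nonneg hδ0 (by linarith) α) (hF0 α)) (ci (cV κ) _ _)
  have low : ∫ α, Vt R (κ - δ) δ α * Fr T α ≤ ∫ α in (-κ)..κ, (R - |α|) * Fr T α := by
    rw [int_supp (h := κ) hκ (fun x hx => by rw [Vt_out hδ0 (by linarith), zero_mul])]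
    refine intervalIntegral.integral_mono_on (by linarith) (ci (cV _) _ _) (ci cA _ _)
      fun α hα => ?_
    exact mul_le_mul_of_nonneg_right (Vt_le hδ0 (by linarith) (by
      rw [sub_add_cancel]; exact abs_le.2 hα)) (hF0 α)
  rw [Real.dist_eq, abs_lt]
  constructor <;> linarith

/-- the constant of the extremal problem -/
noncomputable def jc (R κ : ℝ) : ℝ := R ^ 2 / 2 - R / 2 - R * κ ^ 2 / 2 + κ ^ 3 / 3

lemma J_split {R κ : ℝ} (hR : 1 ≤ R) (hκ : 0 < κ) (hκ1 : κ < 1) (T : ℝ) :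
    ∫ α in κ..R, (R - α) * Fr T α = (R ^ 2 * (∫ α, tr R α * Fr T α) -
      ∫ α in (-κ)..κ, (R - |α|) * Fr T α) / 2 := by
  have hR0 : 0 < R := by linarith
  have hFc := Fr_cont T
  have e0 : R ^ 2 * (∫ α, tr R α * Fr T α) = ∫ α in (-R)..R, (R - |α|) * Fr T α := by
    rw [int_supp hR0 (fun x hx => by rw [tr_supp hR0 x hx, zero_mul]),
      ← intervalIntegral.integral_const_mul]
    refine intervalIntegral.integral_congr fun α hα => ?_
    rw [uIcc_of_le (by linarith)] at hα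
    show R ^ 2 * (tr R α * Fr T α) = (R - |α|) * Fr T α
    rw [← mul_assoc, tent_eq hR0, max_eq_right (by linarith [abs_le.2 hα])]
  have cA : Continuous fun α : ℝ => (R - |α|) * Fr T α := by fun_prop
  have ci : ∀ p q : ℝ, IntervalIntegrable (fun α : ℝ => (R - |α|) * Fr T α) volume p q :=
    fun p q => cA.intervalIntegrable p q
  have e1 : ∫ α in (-R)..(-κ), (R - |α|) * Fr T α = ∫ α in κ..R, (R - |α|) * Fr T α := by
    have h2 := intervalIntegral.integral_comp_neg (a := κ) (b := R)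
      (fun α : ℝ => (R - |α|) * Fr T α)
    rw [← h2]
    refine intervalIntegral.integral_congr fun α _ => ?_
    show (R - |(-α)|) * Fr T (-α) = (R - |α|) * Fr T α
    rw [abs_neg, Fr_even]
  have e2 : ∫ α in κ..R, (R - α) * Fr T α = ∫ α in κ..R, (R - |α|) * Fr T α := by
    refine intervalIntegral.integral_congr fun α hα => ?_
    rw [uIcc_of_le (by linarith)] at hα
    show (R - α) * Fr T α = (R - |α|) * Fr T α
    rw [abs_of_pos (by linarith [hα.1])]
  rw [e0, e2, ← intervalIntegral.integral_add_adjacent_intervals (a := -R) (b := -κ) (c := R)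
    (ci _ _) (ci _ _), ← intervalIntegral.integral_add_adjacent_intervals (a := -κ)
      (b := κ) (c := R) (ci _ _) (ci _ _), e1]
  ring

/-- **The weighted integral of the form factor measures the sum over the distinct pairs.** -/
theorem J_lim (RH : RiemannHypothesis) {R κ : ℝ} (hR : 1 ≤ R) (hκ : 0 < κ) (hκ1 : κ < 1) :
    Tendsto (fun T => (∫ α in κ..R, (R - α) * Fr T α) - R ^ 2 * (PT R T / nT T)) atTop
      (𝓝 (jc R κ)) := by
  have hR0 : 0 < R := by linarith
  have t1 := ((NZ_lim.const_mul (R ^ 2)).sub (A_lim RH hR hκ hκ1)).div_const 2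
  have e1 : (R ^ 2 * 1 - (R + R * κ ^ 2 - 2 * κ ^ 3 / 3)) / 2 = jc R κ := by
    unfold jc; ring
  rw [e1] at t1
  refine t1.congr' ?_
  filter_upwards [eventually_ge_atTop 10] with T hT
  rw [J_split hR hκ hκ1, S_eq RH hR0 hT]
  ring

end Pool.Agent.Y763.AH
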