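import Pool.Agent.Y763.AH.B
import Pool.Agent.H345R2.A3.Num

/-! # Spacings far from the lattice contribute to the pair sum -/

set_option autoImplicit false

open MeasureTheory Set Filter Topology
open Complex (I)

namespace Pool.Agent.Y763.AH

open Pool.Agent.Y749.Rig
open SG (ord NZ zmult ZS)
open H177.Lat (del xlog_low)

/-- the comparison of the two normalisations -/
lemma cmp {T δ a b : ℝ} (hT : 10 ≤ T) (hδ : 0 < δ) (ha : δ * T ≤ a) (hab : a ≤ b) (hb : b ≤ T) :
    |(b * Real.log b - a * Real.log a) / (2 * Real.pi) - (b - a) * Real.log T / (2 * Real.pi)| ≤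
      ((b - a) * Real.log T / (2 * Real.pi)) * ((1 + |Real.log δ|) / Real.log T) := by
  have hpi := Real.pi_pos
  have hL := one_lt_log (show 3 ≤ T by linarith)
  have hL0 : 0 < Real.log T := by linarith
  have hδT : 0 < δ * T := by positivity
  have ha0 : 0 < a := hδT.trans_le ha
  have hb0 : 0 < b := ha0.trans_le hab
  have h1 := xlog_low ha0 hab
  have h2 := H370.A3.xlog_aux ha0 hab
  have h3 : Real.log δ + Real.log T ≤ Real.log a := by
    rw [← Real.log_mul hδ.ne' (by linarith)]
    exact Real.log_le_log hδT ha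
  have h4 : Real.log b ≤ Real.log T := Real.log_le_log hb0 hb
  have h5 : 0 ≤ b - a := by linarith
  have h6 := neg_abs_le (Real.log δ)
  have h7 := abs_nonneg (Real.log δ)
  have e1 : (b * Real.log b - a * Real.log a) / (2 * Real.pi) - (b - a) * Real.log T / (2 * Real.pi) =
      (b * Real.log b - a * Real.log a - (b - a) * Real.log T) / (2 * Real.pi) := by ring
  have e2 : ((b - a) * Real.log T / (2 * Real.pi)) * ((1 + |Real.log δ|) / Real.log T) =
      (b - a) * (1 + |Real.log δ|) / (2 * Real.pi) := by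
    field_simp
  rw [e1, e2, abs_div, abs_of_pos (show 0 < 2 * Real.pi by positivity)]
  apply div_le_div_of_nonneg_right _ (by positivity)
  rw [abs_le]
  constructor
  · have h8 : (b - a) * (Real.log δ + Real.log T + 1) ≤ (b - a) * (Real.log a + 1) :=
      mul_le_mul_of_nonneg_left (by linarith) h5
    have h9 : (b - a) * (-|Real.log δ|) ≤ (b - a) * Real.log δ := mul_le_mul_of_nonneg_left h6 h5
    nlinarith
  · have h8 : (b - a) * (Real.log b + 1) ≤ (b - a) * (Real.log T + 1) :=
      mul_le_mul_of_nonneg_left (by linarith) h5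
    nlinarith [mul_nonneg h5 h7]

/-- the spacing is far from the positive multiples of `1 / R` -/
def Bad (R ε : ℝ) (n : ℕ) : Prop := ∀ k : ℕ, 1 ≤ k → ε ≤ |del n - k / R|

open Classical in
/-- the bad spacings up to `T` -/
noncomputable def BT (R ε T : ℝ) : Finset ℕ := (Finset.Ioc 0 (NZ T)).filter (Bad R ε)

lemma nT_atTop : Tendsto nT atTop atTop := by
  have h1 : Tendsto (fun T : ℝ => T * Real.log T) atTop atTop :=
    tendsto_id.atTop_mul_atTop₀ Real.tendsto_log_atTop
  exact h1.atTop_div_const (by have := Real.pi_pos; positivity)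

/-- few zeros at low heights -/
lemma early {η : ℝ} (hη : 0 < η) : ∃ δ : ℝ, 0 < δ ∧ δ ≤ 1 ∧ ∀ᶠ T in atTop,
    (NZ (δ * T) : ℝ) ≤ η * nT T := by
  obtain ⟨δ, hδ⟩ : ∃ δ : ℝ, δ = min 1 (η / 2) := ⟨_, rfl⟩
  have hδ0 : 0 < δ := by rw [hδ]; exact lt_min one_pos (by positivity)
  have hδ1 : δ ≤ 1 := by rw [hδ]; exact min_le_left _ _
  have hδ2 : δ ≤ η / 2 := by rw [hδ]; exact min_le_right _ _
  refine ⟨δ, hδ0, hδ1, ?_⟩
  have h1 : ∀ᶠ t in atTop, (NZ t : ℝ) / nT t < 2 := NZ_lim.eventually (gt_mem_nhds (by norm_num))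
  have h2 : Tendsto (fun T : ℝ => δ * T) atTop atTop := tendsto_id.const_mul_atTop hδ0
  filter_upwards [h2.eventually h1, h2.eventually (eventually_ge_atTop 10), eventually_ge_atTop 10]
    with T h3 h4 h5
  have hn := nT_pos h4
  have hn' := nT_pos h5
  rw [div_lt_iff₀ hn] at h3
  have h6 : nT (δ * T) ≤ δ * nT T := by
    unfold nT
    have hlog : Real.log (δ * T) ≤ Real.log T := Real.log_le_log (by linarith) (by nlinarith)
    have : δ * T * Real.log (δ * T) ≤ δ * T * Real.log T :=
      mul_le_mul_of_nonneg_left hlog (by positivity)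
    rw [← mul_div_assoc]
    apply div_le_div_of_nonneg_right _ (by have := Real.pi_pos; positivity)
    linarith
  calc (NZ (δ * T) : ℝ) ≤ 2 * nT (δ * T) := h3.le
    _ ≤ 2 * (δ * nT T) := by linarith
    _ ≤ 2 * (η / 2 * nT T) := by
        have := mul_le_mul_of_nonneg_right hδ2 hn'.le
        linarith
    _ = η * nT T := by ring

/-- the kernel vanishes at the lattice points -/
lemma g_zero {R : ℝ} (hR : 0 < R) {m : ℕ} (hm : 1 ≤ m) : fl (tr R) ((m : ℝ) / R) = 0 := by
  have hm0 : (0 : ℝ) < m := by exact_mod_cast hm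
  rw [fl_tr hR (by positivity)]
  have : Real.pi * R * (m / R) = m * Real.pi := by field_simp
  rw [this, Real.sin_nat_mul_pi]
  simp

/-- the kernel is bounded below away from the lattice points -/
lemma g_low {R : ℝ} (hR : 0 < R) {ε : ℝ} (hε : 0 < ε) (U : ℝ) : ∃ c : ℝ, 0 < c ∧ ∀ x : ℝ, 0 ≤ x →
    x ≤ U → (∀ k : ℕ, 1 ≤ k → ε ≤ |x - k / R|) → c ≤ fl (tr R) x := by
  obtain ⟨K, hK⟩ : ∃ K : Set ℝ, K = Icc 0 U ∩ ⋂ k : ℕ, ⋂ _ : 1 ≤ k, {x : ℝ | ε ≤ |x - k / R|} :=
    ⟨_, rfl⟩
  have hKc : IsCompact K := by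
    rw [hK]
    refine isCompact_Icc.inter_right ?_
    refine isClosed_iInter fun k => isClosed_iInter fun _ => ?_
    exact isClosed_le continuous_const (by fun_prop)
  have hmem : ∀ x : ℝ, x ∈ K ↔ (0 ≤ x ∧ x ≤ U) ∧ ∀ k : ℕ, 1 ≤ k → ε ≤ |x - k / R| := by
    intro x
    rw [hK]
    simp only [mem_inter_iff, mem_Icc, mem_iInter, mem_ofPred_eq]
  have hpos : ∀ x ∈ K, 0 < fl (tr R) x := by
    intro x hx
    rw [hmem] at hx
    obtain ⟨⟨h0, h1⟩, h2⟩ := hx
    rcases h0.eq_or_lt with h3 | h3
    · rw [← h3, fl_tr_zero hR]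
      exact one_pos
    · rw [fl_tr hR h3.ne']
      have hpi := Real.pi_pos
      have hne : Real.sin (Real.pi * R * x) ≠ 0 := by
        intro hs
        rw [Real.sin_eq_zero_iff] at hs
        obtain ⟨n, hn⟩ := hs
        have hn2 : (n : ℝ) = R * x := by
          have : Real.pi * ((n : ℝ) - R * x) = 0 := by linarith
          rcases mul_eq_zero.1 this with h | h
          · exact absurd h hpi.ne'
          · linarith
        have hn0 : 0 < n := by
          have : (0 : ℝ) < n := by rw [hn2]; positivity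
          exact_mod_cast this
        have h4 := h2 n.toNat (by omega)
        have h5 : ((n.toNat : ℕ) : ℝ) = R * x := by
          rw [← hn2]
          have : ((n.toNat : ℕ) : ℤ) = n := Int.toNat_of_nonneg hn0.le
          exact_mod_cast this
        rw [h5, mul_div_cancel_left₀ _ hR.ne', sub_self, abs_zero] at h4
        linarith
      positivity
  rcases K.eq_empty_or_nonempty with he | hne
  · refine ⟨1, one_pos, fun x h1 h2 h3 => ?_⟩
    have : x ∈ K := (hmem x).2 ⟨⟨h1, h2⟩, h3⟩
    rw [he] at this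
    exact absurd this (Set.notMem_empty x)
  · obtain ⟨x0, hx0, hmin⟩ := hKc.exists_isMinOn hne (fl_cont (tr_int hR)).continuousOn
    exact ⟨fl (tr R) x0, hpos x0 hx0, fun x h1 h2 h3 => hmin ((hmem x).2 ⟨⟨h1, h2⟩, h3⟩)⟩

/-- **The bad spacings contribute a positive proportion to the sum over the pairs.** -/
theorem D1 {R ε η : ℝ} (hR : 0 < R) (hε : 0 < ε) (hη : 0 < η) : ∃ c : ℝ, 0 < c ∧
    ∀ᶠ T in atTop, c * ((BT R ε T).card / nT T - η) ≤ PT R T / nT T := by
  classical
  obtain ⟨U, hU⟩ : ∃ U : ℝ, U = 4 / η := ⟨_, rfl⟩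
  have hU0 : 0 < U := by rw [hU]; positivity
  obtain ⟨δ, hδ0, hδ1, hear⟩ := early (η := η / 4) (by positivity)
  obtain ⟨c0, hc0, hg⟩ := g_low hR (ε := ε / 2) (by positivity) U
  refine ⟨c0 / 2, by positivity, ?_⟩
  have hpi := Real.pi_pos
  filter_upwards [hear, eventually_ge_atTop 10,
    Real.tendsto_log_atTop.eventually_ge_atTop (2 * (U * (1 + |Real.log δ|)) / ε),
    Real.tendsto_log_atTop.eventually_ge_atTop (2 * Real.pi * U),
    nT_atTop.eventually_ge_atTop (4 / η)] with T h1 hT h3 h4 h5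
  have hn := nT_pos hT
  have hL := one_lt_log (show 3 ≤ T by linarith)
  have hL0 : 0 < Real.log T := by linarith
  obtain ⟨N, hN⟩ : ∃ N : ℕ, N = NZ T := ⟨_, rfl⟩
  obtain ⟨x, hx⟩ : ∃ x : ℕ → ℝ, ∀ n, x n = (ord (n + 1) - ord n) * Real.log T / (2 * Real.pi) :=
    ⟨_, fun n => rfl⟩
  have hordT : ∀ n, 1 ≤ n → n ≤ N → ord n ≤ T := fun n a b =>
    (SG.ord_le_iff a T).2 (by rw [← hN]; exact b)
  have hx0 : ∀ n, 1 ≤ n → 0 ≤ x n := by
    intro n hn1
    rw [hx]
    have := SG.ord_mono hn1 (Nat.le_succ n)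
    have h6 : (0 : ℝ) ≤ ord (n + 1) - ord n := by
      have h7 : ord n ≤ ord (n + 1) := this
      linarith
    positivity
  obtain ⟨S, hS⟩ : ∃ S : Finset ℕ, S = (Finset.Ioc 0 (N - 1)).filter
      (fun n => Bad R ε n ∧ δ * T < ord n ∧ x n ≤ U) := ⟨_, rfl⟩
  -- the contribution of the members of `S`
  have hcon : ∀ n ∈ S, c0 / 2 ≤ gw R T (ord n) (ord (n + 1)) := by
    intro n hnS
    rw [hS, Finset.mem_filter, Finset.mem_Ioc] at hnS
    obtain ⟨⟨a1, a2⟩, a3, a4, a5⟩ := hnS
    have b1 : 1 ≤ n := a1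
    have b2 : ord n ≤ ord (n + 1) := SG.ord_mono b1 (Nat.le_succ n)
    have b3 : ord (n + 1) ≤ T := hordT _ (by omega) (by omega)
    have b4 := cmp hT hδ0 a4.le b2 b3
    rw [← hx n] at b4
    have b5 : |del n - x n| ≤ ε / 2 := by
      refine b4.trans ?_
      have b6 : x n * ((1 + |Real.log δ|) / Real.log T) ≤ U * ((1 + |Real.log δ|) / Real.log T) := by
        apply mul_le_mul_of_nonneg_right a5
        have := abs_nonneg (Real.log δ)
        positivity
      refine b6.trans ?_
      rw [mul_div_assoc', div_le_iff₀ hL0]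
      rw [div_le_iff₀ hε] at h3
      linarith
    have b7 : ∀ k : ℕ, 1 ≤ k → ε / 2 ≤ |x n - k / R| := by
      intro k hk
      have c1 := a3 k hk
      have c2 : |del n - k / R| ≤ |del n - x n| + |x n - k / R| := abs_sub_le _ _ _
      linarith
    have b8 := hg (x n) (hx0 n b1) a5 b7
    rw [gw_symm]
    unfold gw
    rw [← hx n]
    have b9 : 1 / 2 ≤ ww (ord (n + 1) - ord n) := by
      have c1 : ord (n + 1) - ord n = 2 * Real.pi * x n / Real.log T := by
        rw [hx]; field_simp
      have c2 : 2 * Real.pi * x n / Real.log T ≤ 1 := by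
        rw [div_le_one hL0]
        refine le_trans ?_ h4
        exact mul_le_mul_of_nonneg_left a5 (by positivity)
      have c3 : 0 ≤ 2 * Real.pi * x n / Real.log T := by
        have := hx0 n b1
        positivity
      rw [c1]
      unfold ww
      rw [div_le_div_iff₀ (by norm_num) (by positivity)]
      nlinarith
    have b10 := fl_tr_nonneg hR (x n)
    nlinarith [ww_pos (ord (n + 1) - ord n)]
  have hS1 : c0 / 2 * S.card ≤ PT R T := by
    have c1 : c0 / 2 * S.card ≤ ∑ n ∈ S, gw R T (ord n) (ord (n + 1)) := by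
      have := Finset.sum_le_sum hcon
      rw [Finset.sum_const, nsmul_eq_mul] at this
      linarith
    have c2 : ∑ n ∈ S, gw R T (ord n) (ord (n + 1)) ≤
        ∑ n ∈ Finset.Ioc 0 (N - 1), gw R T (ord n) (ord (n + 1)) := by
      apply Finset.sum_le_sum_of_subset_of_nonneg
      · rw [hS]; exact Finset.filter_subset _ _
      · intro n _ _
        exact gw_nonneg hR _ _ _
    have c3 := PS_first (f := fun n n' => gw R T (ord n) (ord n')) (N := N)
      (fun n n' => gw_nonneg hR _ _ _)
    rw [hN] at c3 c2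
    exact c1.trans (c2.trans c3)
  -- the large spacings
  have hlarge : U * ((Finset.Ioc 0 (N - 1)).filter (fun n => U < x n)).card ≤ nT T := by
    have c1 : U * ((Finset.Ioc 0 (N - 1)).filter (fun n => U < x n)).card ≤
        ∑ n ∈ (Finset.Ioc 0 (N - 1)).filter (fun n => U < x n), x n := by
      have : ∀ n ∈ (Finset.Ioc 0 (N - 1)).filter (fun n => U < x n), U ≤ x n := fun n hn' =>
        (Finset.mem_filter.1 hn').2.le
      have := Finset.sum_le_sum this
      rw [Finset.sum_const, nsmul_eq_mul] at this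
      linarith
    have c2 : ∑ n ∈ (Finset.Ioc 0 (N - 1)).filter (fun n => U < x n), x n ≤
        ∑ n ∈ Finset.Ioc 0 (N - 1), x n := by
      apply Finset.sum_le_sum_of_subset_of_nonneg (Finset.filter_subset _ _)
      intro n hn' _
      exact hx0 n (Finset.mem_Ioc.1 hn').1
    have c3 : ∀ M : ℕ, ∑ n ∈ Finset.Ioc 0 M, x n =
        (ord (M + 1) - ord 1) * Real.log T / (2 * Real.pi) := by
      intro M
      induction M with
      | zero => simp
      | succ M ih =>
        rw [Finset.sum_Ioc_succ_top (Nat.zero_le M), ih, hx]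
        ring
    have c4 : ∑ n ∈ Finset.Ioc 0 (N - 1), x n ≤ nT T := by
      rw [c3]
      unfold nT
      apply div_le_div_of_nonneg_right _ (by positivity)
      apply mul_le_mul_of_nonneg_right _ hL0.le
      have c5 : 0 < ord 1 := SG.ord_pos le_rfl
      rcases Nat.eq_zero_or_pos N with h0 | h0
      · rw [h0]
        simp only [Nat.zero_sub, zero_add, sub_self]
        linarith
      · have := hordT N h0 le_rfl
        have e : N - 1 + 1 = N := by omega
        rw [e]
        linarith
    linarith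
  -- the count
  have hcount : (BT R ε T).card ≤ S.card + 1 + NZ (δ * T) +
      ((Finset.Ioc 0 (N - 1)).filter (fun n => U < x n)).card := by
    have hsub : BT R ε T ⊆ ((S ∪ {N}) ∪ Finset.Ioc 0 (NZ (δ * T))) ∪
        (Finset.Ioc 0 (N - 1)).filter (fun n => U < x n) := by
      intro n hnB
      unfold BT at hnB
      rw [Finset.mem_filter, Finset.mem_Ioc, ← hN] at hnB
      obtain ⟨⟨a1, a2⟩, a3⟩ := hnB
      rw [Finset.mem_union, Finset.mem_union, Finset.mem_union]
      by_cases c1 : n = N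
      · left; left; right
        exact Finset.mem_singleton.2 c1
      have c2 : n ∈ Finset.Ioc 0 (N - 1) := by rw [Finset.mem_Ioc]; omega
      by_cases c3 : ord n ≤ δ * T
      · left; right
        rw [Finset.mem_Ioc]
        exact ⟨a1, (SG.ord_le_iff a1 _).1 c3⟩
      by_cases c4 : U < x n
      · right
        exact Finset.mem_filter.2 ⟨c2, c4⟩
      · left; left; left
        rw [hS]
        exact Finset.mem_filter.2 ⟨c2, a3, not_le.1 c3, not_lt.1 c4⟩
    refine (Finset.card_le_card hsub).trans ?_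
    refine (Finset.card_union_le _ _).trans ?_
    have c1 := Finset.card_union_le (S ∪ {N}) (Finset.Ioc 0 (NZ (δ * T)))
    have c2 := Finset.card_union_le S {N}
    rw [Finset.card_singleton] at c2
    rw [Nat.card_Ioc, Nat.sub_zero] at c1
    omega
  have hcount' : ((BT R ε T).card : ℝ) ≤ S.card + 1 + NZ (δ * T) +
      ((Finset.Ioc 0 (N - 1)).filter (fun n => U < x n)).card := by exact_mod_cast hcount
  have k1 : (((Finset.Ioc 0 (N - 1)).filter (fun n => U < x n)).card : ℝ) ≤ η / 4 * nT T := by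
    have : U * (η / 4 * nT T) = nT T := by rw [hU]; field_simp
    rw [← this] at hlarge
    exact le_of_mul_le_mul_left hlarge hU0
  have k2 : (1 : ℝ) ≤ η / 4 * nT T := by
    have : η / 4 * (4 / η) ≤ η / 4 * nT T := mul_le_mul_of_nonneg_left h5 (by positivity)
    have e : η / 4 * (4 / η) = 1 := by field_simp
    linarith
  have k3 : ((BT R ε T).card : ℝ) - η * nT T ≤ S.card := by
    have : 0 < η * nT T := by positivity
    linarith
  have k4 : c0 / 2 * (((BT R ε T).card : ℝ) / nT T - η) = (c0 / 2 * (((BT R ε T).card : ℝ) - η * nT T)) /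
      nT T := by field_simp
  rw [k4]
  apply div_le_div_of_nonneg_right _ hn.le
  exact (mul_le_mul_of_nonneg_left k3 (by positivity)).trans hS1

end Pool.Agent.Y763.AH
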