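import Pool.Agent.Y763.AH.C

/-! # The pair sum is small if almost all spacings are near the lattice -/

set_option autoImplicit false

open MeasureTheory Set Filter Topology
open Complex (I)

namespace Pool.Agent.Y763.AH

open Pool.Agent.Y749.Rig
open SG (ord NZ zmult ZS)
open H177.Lat (del xlog_low)

lemma g_le_one {R : ℝ} (hR : 0 < R) (x : ℝ) : fl (tr R) x ≤ 1 := by
  rcases eq_or_ne x 0 with hx | hx
  · rw [hx, fl_tr_zero hR]
  · have hpi := Real.pi_pos
    rw [fl_tr hR hx, ← Real.sinc_of_ne_zero (by positivity)]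
    exact (sq_le_one_iff_abs_le_one _).2 (Real.abs_sinc_le_one _)

open Classical in
/-- distant pairs -/
noncomputable def tl (R T : ℝ) (u : ℕ) (x x' : ℝ) : ℝ :=
  if (u : ℝ) ≤ |(x - x') * Real.log T / (2 * Real.pi)| then gw R T x x' else 0

/-- distant pairs contribute little -/
theorem far (hRH : RiemannHypothesis) {R η : ℝ} (hR : 0 < R) (hη : 0 < η) : ∃ u : ℕ,
    ∀ᶠ T in atTop, PS (fun n n' => tl R T u (ord n) (ord n')) (NZ T) ≤ η * nT T := by
  classical
  obtain ⟨C, hC, hB⟩ := Mp_bdd
  have hC0 : 0 ≤ C := by linarith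
  obtain ⟨B, hB'⟩ := fl_bound (adm_tr hR)
  have hB0 : 0 ≤ B := by
    have := (abs_nonneg _).trans (hB' 0)
    simpa using this
  obtain ⟨u, hu⟩ : ∃ u : ℕ, B * (2 * C * DD u) < η := by
    have h1 : Tendsto (fun n => B * (2 * C * DD n)) atTop (𝓝 (B * (2 * C * 0))) :=
      (DD_tendsto.const_mul _).const_mul _
    rw [mul_zero, mul_zero] at h1
    exact (h1.eventually (gt_mem_nhds hη)).exists
  refine ⟨u, ?_⟩
  filter_upwards [hB, eventually_ge_atTop 10] with T hT hT10
  have hn := nT_pos hT10
  have hfin := Mp_fin T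
  have hmeas : MeasurableSet {x : ℝ | (u : ℝ) ≤ |x|} :=
    measurableSet_le measurable_const continuous_abs.measurable
  have i3 : Integrable (fun x : ℝ => 1 / (1 + x ^ 2)) (Mp T) := by
    refine Bdd.integrable hC0 hT ?_ ⟨1, fun x => ?_⟩
    · exact continuous_const.div (by fun_prop) fun x => by positivity
    · rw [abs_of_pos (by positivity)]
  have tail : ∫ x in {x : ℝ | (u : ℝ) ≤ |x|}, 1 / (1 + x ^ 2) ∂(Mp T) ≤ 2 * C * DD u := by
    have h1 := lint_le hC0 hT u
    rw [integral_eq_lintegral_of_nonneg_ae (ae_of_all _ fun x => by positivity)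
      i3.aestronglyMeasurable.restrict]
    have h2 : 0 ≤ 2 * C * DD u := by
      have := DD_nonneg u
      positivity
    exact ENNReal.toReal_le_of_le_ofReal h2 h1
  have hi1 : Integrable (fl (tr R)) (Mp T) :=
    Bdd.integrable hC0 hT (fl_cont (tr_int hR)) (fl_qd (adm_tr hR))
  have hint : ∫ x, {x : ℝ | (u : ℝ) ≤ |x|}.indicator (fl (tr R)) x ∂(Mp T) ≤ η := by
    rw [integral_indicator hmeas]
    calc ∫ x in {x : ℝ | (u : ℝ) ≤ |x|}, fl (tr R) x ∂(Mp T) ≤
          ∫ x in {x : ℝ | (u : ℝ) ≤ |x|}, B * (1 / (1 + x ^ 2)) ∂(Mp T) := by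
          refine integral_mono hi1.integrableOn (i3.const_mul B).integrableOn fun x => ?_
          show fl (tr R) x ≤ B * (1 / (1 + x ^ 2))
          have := (le_abs_self _).trans (hB' x)
          rwa [mul_one_div]
      _ = B * ∫ x in {x : ℝ | (u : ℝ) ≤ |x|}, 1 / (1 + x ^ 2) ∂(Mp T) := integral_const_mul _ _
      _ ≤ B * (2 * C * DD u) := mul_le_mul_of_nonneg_left tail hB0
      _ ≤ η := hu.le
  rw [Mp_integral hT10 (fun x => {x : ℝ | (u : ℝ) ≤ |x|}.indicator (fl (tr R)) x),
    div_le_iff₀ hn] at hint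
  obtain ⟨F, hF⟩ : ∃ F : ℝ → ℝ → ℝ, ∀ x x', F x x' = {x : ℝ | (u : ℝ) ≤ |x|}.indicator (fl (tr R))
    ((x - x') * Real.log T / (2 * Real.pi)) := ⟨_, fun x x' => rfl⟩
  have e1 : RR (fun x => {x : ℝ | (u : ℝ) ≤ |x|}.indicator (fl (tr R)) x) (ZZ T) (ZZ T)
      (Real.log T) = ∑ s ∈ ZZ T, ∑ s' ∈ ZZ T, mm s * mm s' * F s.im s'.im := by
    unfold RR
    refine Finset.sum_congr rfl fun s _ => Finset.sum_congr rfl fun s' _ => ?_
    rw [hF]
  have hF0 : ∀ x x', 0 ≤ F x x' := by
    intro x x'
    rw [hF]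
    exact indicator_nonneg (fun y _ => fl_tr_nonneg hR y) _
  have hFs : ∀ x x', F x x' = F x' x := by
    intro x x'
    rw [hF, hF]
    have e2 : (x' - x) * Real.log T / (2 * Real.pi) = -((x - x') * Real.log T / (2 * Real.pi)) := by
      ring
    rw [e2]
    obtain ⟨z, hz⟩ : ∃ z : ℝ, z = (x - x') * Real.log T / (2 * Real.pi) := ⟨_, rfl⟩
    rw [← hz]
    by_cases h : (u : ℝ) ≤ |z|
    · rw [indicator_of_mem (show z ∈ {x : ℝ | (u : ℝ) ≤ |x|} from h),
        indicator_of_mem (show -z ∈ {x : ℝ | (u : ℝ) ≤ |x|} by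
          show (u : ℝ) ≤ |(-z)|
          rwa [abs_neg]), fl_even]
    · rw [indicator_of_notMem (show z ∉ {x : ℝ | (u : ℝ) ≤ |x|} from h),
        indicator_of_notMem (show -z ∉ {x : ℝ | (u : ℝ) ≤ |x|} by
          show ¬ (u : ℝ) ≤ |(-z)|
          rwa [abs_neg])]
  rw [e1, sum_idx2 hRH T F, full_sum (fun n n' => F (ord n) (ord n')) (fun n n' => hFs _ _)] at hint
  have h1 : 0 ≤ ∑ n ∈ Finset.Ioc 0 (NZ T), F (ord n) (ord n) :=
    Finset.sum_nonneg fun n _ => hF0 _ _
  have h2 : 0 ≤ PS (fun n n' => F (ord n) (ord n')) (NZ T) := PS_nonneg fun _ _ => hF0 _ _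
  have h3 : PS (fun n n' => tl R T u (ord n) (ord n')) (NZ T) ≤
      PS (fun n n' => F (ord n) (ord n')) (NZ T) := by
    refine PS_mono fun n j _ _ _ => ?_
    unfold tl
    rw [hF]
    split_ifs with h
    · rw [indicator_of_mem (show _ ∈ {x : ℝ | (u : ℝ) ≤ |x|} from h)]
      unfold gw
      exact mul_le_of_le_one_right (fl_tr_nonneg hR _) (ww_le _)
    · exact indicator_nonneg (fun y _ => fl_tr_nonneg hR y) _
  linarith

/-- clusters -/
lemma clus (hRH : RiemannHypothesis) (u : ℕ) {η : ℝ} (hη : 0 < η) : ∃ K : ℕ, 1 ≤ K ∧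
    ∀ T : ℝ, 10 ≤ T → ∃ a : ℕ → ℝ, (∀ j : ℕ, K < j →
    ((((Finset.Ioc 0 (NZ T - j)).filter (fun n => (ord (n + j) - ord n) * Real.log T /
      (2 * Real.pi) < u)).card : ℝ) ≤ NZ T * a j)) ∧ (∀ j, 0 ≤ a j) ∧
    ∀ M : ℕ, ∑ j ∈ Finset.Ico (K + 1) M, a j ≤ η := by
  classical
  obtain ⟨c, hc, m0, hm0, h⟩ := LG.CU.cluster_uniform (H177.Lat.rhs_of hRH)
  obtain ⟨r, hr⟩ : ∃ r : ℝ, r = Real.exp (-c) := ⟨_, rfl⟩
  have hr0 : 0 < r := by rw [hr]; exact Real.exp_pos _
  have hr1 : r < 1 := by rw [hr, Real.exp_lt_one_iff]; linarith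
  obtain ⟨K1, hK1⟩ : ∃ K1 : ℕ, r ^ K1 < η * (1 - r) :=
    exists_pow_lt_of_lt_one (mul_pos hη (by linarith)) hr1
  obtain ⟨K, hK⟩ : ∃ K : ℕ, K = max (max m0 K1) (max 3 ⌈(u : ℝ) / c⌉₊) := ⟨_, rfl⟩
  have k1 : m0 ≤ K := by rw [hK]; exact (le_max_left _ _).trans (le_max_left _ _)
  have k2 : K1 ≤ K := by rw [hK]; exact (le_max_right _ _).trans (le_max_left _ _)
  have k3 : 3 ≤ K := by rw [hK]; exact (le_max_left _ _).trans (le_max_right _ _)
  have k4 : (u : ℝ) / c ≤ K := by
    have : ⌈(u : ℝ) / c⌉₊ ≤ K := by rw [hK]; exact (le_max_right _ _).trans (le_max_right _ _)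
    exact (Nat.le_ceil _).trans (by exact_mod_cast this)
  refine ⟨K, by omega, fun T hT => ⟨fun j => r ^ j, ?_, fun j => by positivity, ?_⟩⟩
  · intro j hj
    have hL := one_lt_log (show 3 ≤ T by linarith)
    have hpi := Real.pi_pos
    rcases Nat.eq_zero_or_pos (NZ T) with h0 | h0
    · rw [h0]
      simp
    · have h1 := h (NZ T) h0 j (by omega)
      have hsub : (((Finset.Ioc 0 (NZ T - j)).filter (fun n => (ord (n + j) - ord n) * Real.log T /
          (2 * Real.pi) < u) : Finset ℕ) : Set ℕ) ⊆ {n : ℕ | 1 ≤ n ∧ n ≤ NZ T ∧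
            ∑ i ∈ Finset.range j, LG.CU.del (n + i) ≤ c * j} := by
        intro n hn
        rw [Finset.mem_coe, Finset.mem_filter, Finset.mem_Ioc] at hn
        obtain ⟨⟨a1, a2⟩, a3⟩ := hn
        refine ⟨a1, by omega, ?_⟩
        have b1 : ∀ i ∈ Finset.range j, LG.CU.del (n + i) ≤
            (ord (n + (i + 1)) - ord (n + i)) * (Real.log T / (2 * Real.pi)) := by
          intro i hi
          rw [Finset.mem_range] at hi
          unfold LG.CU.del
          have c1 : ord (n + i) ≤ ord (n + i + 1) := SG.ord_mono (by omega) (by omega)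
          have c2 : 0 < ord (n + i) := SG.ord_pos (by omega)
          have c3 : ord (n + i) ≤ T := (SG.ord_le_iff (by omega) T).2 (by omega)
          have c4 : Real.log (ord (n + i) / (2 * Real.pi)) ≤ Real.log T := by
            apply Real.log_le_log (by positivity)
            refine le_trans (div_le_self c2.le ?_) c3
            have := Real.pi_gt_three
            linarith
          have e : n + (i + 1) = n + i + 1 := by ring
          rw [e]
          have e2 : (ord (n + i + 1) - ord (n + i)) / (2 * Real.pi) *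
              Real.log (ord (n + i) / (2 * Real.pi)) = (ord (n + i + 1) - ord (n + i)) *
              (Real.log (ord (n + i) / (2 * Real.pi)) / (2 * Real.pi)) := by ring
          rw [e2]
          apply mul_le_mul_of_nonneg_left _ (by linarith)
          exact div_le_div_of_nonneg_right c4 (by positivity)
        refine (Finset.sum_le_sum b1).trans ?_
        rw [← Finset.sum_mul, Finset.sum_range_sub (fun i => ord (n + i)), add_zero]
        rw [mul_div_assoc] at a3
        refine a3.le.trans ?_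
        rw [div_le_iff₀ hc] at k4
        have : (K : ℝ) ≤ j := by exact_mod_cast hj.le
        nlinarith
      have hfin : {n : ℕ | 1 ≤ n ∧ n ≤ NZ T ∧
            ∑ i ∈ Finset.range j, LG.CU.del (n + i) ≤ c * j}.Finite :=
        (Set.finite_Icc 1 (NZ T)).subset fun n hn => ⟨hn.1, hn.2.1⟩
      have h2 := Set.ncard_le_ncard hsub hfin
      rw [Set.ncard_coe_finset] at h2
      have h3 : (((Finset.Ioc 0 (NZ T - j)).filter (fun n => (ord (n + j) - ord n) * Real.log T /
          (2 * Real.pi) < u)).card : ℝ) ≤ NZ T * Real.exp (-c * j * Real.log j) :=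
        le_trans (by exact_mod_cast h2) h1
      refine h3.trans ?_
      apply mul_le_mul_of_nonneg_left _ (Nat.cast_nonneg _)
      show Real.exp (-c * j * Real.log j) ≤ r ^ j
      rw [hr, ← Real.exp_nat_mul]
      apply Real.exp_le_exp.2
      have h4 : (3 : ℝ) ≤ j := by
        have : 3 ≤ j := by omega
        exact_mod_cast this
      have h5 : 1 ≤ Real.log j := (one_lt_log h4).le
      have h6 : 0 ≤ c * j := by positivity
      nlinarith
  · intro M
    refine (geom_sum_Ico_le_of_lt_one hr0.le hr1).trans ?_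
    rw [div_le_iff₀ (by linarith)]
    refine le_trans ?_ hK1.le
    exact pow_le_pow_of_le_one hr0.le hr1.le (by omega)

open Classical in
/-- **The sum over the pairs is bounded by the number of the bad spacings.** -/
theorem D2 (hRH : RiemannHypothesis) {R η : ℝ} (hR : 0 < R) (hη : 0 < η) : ∃ ε : ℝ, 0 < ε ∧
    ∃ C : ℝ, 0 < C ∧ ∀ᶠ T in atTop, PT R T / nT T ≤ C * ((BT R ε T).card / nT T) + η := by
  have hpi := Real.pi_pos
  obtain ⟨u, hfar⟩ := far hRH hR (η := η / 4) (by positivity)
  obtain ⟨K, hK1, hcl⟩ := clus hRH u (η := η / 8) (by positivity)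
  have hK0 : (0 : ℝ) < K := by exact_mod_cast hK1
  obtain ⟨δ, hδ0, hδ1, hear⟩ := early (η := η / (4 * K)) (by positivity)
  obtain ⟨η', hη'⟩ : ∃ η' : ℝ, η' = η / (8 * K) := ⟨_, rfl⟩
  have hη'0 : 0 < η' := by rw [hη']; positivity
  obtain ⟨ω, hω0, hω⟩ : ∃ ω : ℝ, 0 < ω ∧ ∀ x ∈ Icc (0 : ℝ) (u + 1), ∀ y ∈ Icc (0 : ℝ) (u + 1),
      dist x y < ω → dist (fl (tr R) x) (fl (tr R) y) < η' := by
    have huc := (isCompact_Icc (a := (0 : ℝ)) (b := u + 1)).uniformContinuousOn_of_continuous
      (fl_cont (tr_int hR)).continuousOn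
    rw [Metric.uniformContinuousOn_iff] at huc
    exact huc η' hη'0
  obtain ⟨ε, hε⟩ : ∃ ε : ℝ, ε = min (ω / (2 * (K + 1))) (1 / (K + 1)) := ⟨_, rfl⟩
  have hε0 : 0 < ε := by rw [hε]; exact lt_min (by positivity) (by positivity)
  have hε1 : (K + 1) * ε < ω := by
    have h1 : ε ≤ ω / (2 * (K + 1)) := by rw [hε]; exact min_le_left _ _
    have h2 : (K + 1) * ε ≤ (K + 1) * (ω / (2 * (K + 1))) :=
      mul_le_mul_of_nonneg_left h1 (by positivity)
    have e : ((K : ℝ) + 1) * (ω / (2 * (K + 1))) = ω / 2 := by field_simp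
    linarith
  have hε2 : (K + 1) * ε ≤ 1 := by
    have h1 : ε ≤ 1 / (K + 1) := by rw [hε]; exact min_le_right _ _
    have h2 : (K + 1) * ε ≤ (K + 1) * (1 / (K + 1)) := mul_le_mul_of_nonneg_left h1 (by positivity)
    have e : ((K : ℝ) + 1) * (1 / (K + 1)) = 1 := by field_simp
    linarith
  refine ⟨ε, hε0, K * K, by positivity, ?_⟩
  have hNZ2 : ∀ᶠ T in atTop, (NZ T : ℝ) / nT T < 2 := NZ_lim.eventually (gt_mem_nhds (by norm_num))
  filter_upwards [hfar, hear, eventually_ge_atTop 10, hNZ2,
    Real.tendsto_log_atTop.eventually_ge_atTop (u * (1 + |Real.log δ|) / ε)] with T t1 t2 hT t3 t4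
  obtain ⟨a, ha, ha0, hasum⟩ := hcl T hT
  have hn := nT_pos hT
  have hL := one_lt_log (show 3 ≤ T by linarith)
  have hL0 : 0 < Real.log T := by linarith
  rw [div_lt_iff₀ hn] at t3
  obtain ⟨N, hN⟩ : ∃ N : ℕ, N = NZ T := ⟨_, rfl⟩
  rw [← hN] at t1 t3 ha
  -- the near pairs
  have near : ∀ n j : ℕ, 1 ≤ n → 1 ≤ j → j ≤ K → n + j ≤ N →
      (∀ i < j, ¬ Bad R ε (n + i)) → δ * T < ord n →
      gw R T (ord n) (ord (n + j)) ≤ tl R T u (ord n) (ord (n + j)) + η' := by
    intro n j hn1 hj hjK hnj hbad hord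
    have b2 : ord n ≤ ord (n + j) := SG.ord_mono hn1 (Nat.le_add_right _ _)
    have b3 : ord (n + j) ≤ T := (SG.ord_le_iff (by omega) T).2 (by omega)
    obtain ⟨x, hx⟩ : ∃ x : ℝ, x = (ord (n + j) - ord n) * Real.log T / (2 * Real.pi) := ⟨_, rfl⟩
    have hx0 : 0 ≤ x := by
      rw [hx]
      have : 0 ≤ ord (n + j) - ord n := by linarith
      positivity
    have ex : (ord n - ord (n + j)) * Real.log T / (2 * Real.pi) = -x := by rw [hx]; ring
    unfold tl
    rw [ex, abs_neg, abs_of_nonneg hx0]
    split_ifs with hux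
    · linarith
    · push Not at hux
      rw [zero_add]
      unfold gw
      rw [ex, fl_even]
      refine (mul_le_of_le_one_right (fl_tr_nonneg hR _) (ww_le _)).trans ?_
      -- the lattice point
      have hk : ∀ i : ℕ, ∃ k : ℕ, i < j → 1 ≤ k ∧ |del (n + i) - k / R| < ε := by
        intro i
        by_cases hij : i < j
        · have := hbad i hij
          unfold Bad at this
          push Not at this
          obtain ⟨k, h1, h2⟩ := this
          exact ⟨k, fun _ => ⟨h1, h2⟩⟩
        · exact ⟨0, fun h => absurd h hij⟩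
      choose k hk using hk
      obtain ⟨m, hm⟩ : ∃ m : ℕ, m = ∑ i ∈ Finset.range j, k i := ⟨_, rfl⟩
      have hm1 : 1 ≤ m := by
        rw [hm]
        have h0 : 0 ∈ Finset.range j := Finset.mem_range.2 hj
        exact (hk 0 hj).1.trans (Finset.single_le_sum (f := k) (fun i _ => Nat.zero_le _) h0)
      have hdel : ∑ i ∈ Finset.range j, del (n + i) =
          (ord (n + j) * Real.log (ord (n + j)) - ord n * Real.log (ord n)) / (2 * Real.pi) := by
        have h1 : ∀ i ∈ Finset.range j, del (n + i) =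
            (ord (n + (i + 1)) * Real.log (ord (n + (i + 1)))) / (2 * Real.pi) -
            (ord (n + i) * Real.log (ord (n + i))) / (2 * Real.pi) := by
          intro i _
          unfold H177.Lat.del
          rw [← sub_div]
          rfl
        rw [Finset.sum_congr rfl h1,
          Finset.sum_range_sub (fun i => (ord (n + i) * Real.log (ord (n + i))) / (2 * Real.pi)),
          ← sub_div, add_zero]
      have h1 : |∑ i ∈ Finset.range j, del (n + i) - m / R| ≤ K * ε := by
        have e1 : ∑ i ∈ Finset.range j, del (n + i) - m / R =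
            ∑ i ∈ Finset.range j, (del (n + i) - k i / R) := by
          rw [Finset.sum_sub_distrib, hm, ← Finset.sum_div]
          push_cast
          rfl
        rw [e1]
        refine (Finset.abs_sum_le_sum_abs _ _).trans ?_
        refine (Finset.sum_le_sum fun i hi => (hk i (Finset.mem_range.1 hi)).2.le).trans ?_
        rw [Finset.sum_const, Finset.card_range, nsmul_eq_mul]
        have : (j : ℝ) ≤ K := by exact_mod_cast hjK
        exact mul_le_mul_of_nonneg_right this hε0.le
      have h2 := cmp hT hδ0 hord.le b2 b3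
      rw [← hx, ← hdel] at h2
      have h3 : x * ((1 + |Real.log δ|) / Real.log T) ≤ ε := by
        have h4 : x * ((1 + |Real.log δ|) / Real.log T) ≤ u * ((1 + |Real.log δ|) / Real.log T) := by
          apply mul_le_mul_of_nonneg_right hux.le
          have := abs_nonneg (Real.log δ)
          positivity
        refine h4.trans ?_
        rw [mul_div_assoc', div_le_iff₀ hL0]
        rw [div_le_iff₀ hε0] at t4
        linarith
      have h5 : |x - m / R| ≤ (K + 1) * ε := by
        have h6 : |x - m / R| ≤ |x - ∑ i ∈ Finset.range j, del (n + i)| +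
            |∑ i ∈ Finset.range j, del (n + i) - m / R| := abs_sub_le _ _ _
        rw [abs_sub_comm] at h6
        rw [abs_sub_comm x] at h6
        rw [abs_sub_comm (m / R : ℝ) x] at h6
        linarith
      have h6 := abs_le.1 h5
      have h7 : (0 : ℝ) ≤ m / R := by positivity
      have h8 := hω x ⟨hx0, by linarith⟩ (m / R) ⟨h7, by linarith⟩ (by
        rw [Real.dist_eq]
        linarith)
      rw [g_zero hR hm1, Real.dist_eq, sub_zero] at h8
      exact (le_abs_self _).trans h8.le
  -- the bound for each distance of the indices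
  obtain ⟨B, hB⟩ : ∃ B : ℕ, B = (BT R ε T).card := ⟨_, rfl⟩
  obtain ⟨M1, hM1⟩ : ∃ M1 : ℝ, M1 = K * B + NZ (δ * T) + N * η' := ⟨_, rfl⟩
  have hM10 : 0 ≤ M1 := by rw [hM1]; positivity
  have hj : ∀ j ∈ Finset.Ico 1 N, ∑ n ∈ Finset.Ioc 0 (N - j), gw R T (ord n) (ord (n + j)) ≤
      (∑ n ∈ Finset.Ioc 0 (N - j), tl R T u (ord n) (ord (n + j))) +
        ((if j ≤ K then M1 else 0) + (if K < j then N * a j else 0)) := by
    intro j hj
    rw [Finset.mem_Ico] at hj
    rcases le_or_gt j K with hjK | hjK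
    · rw [if_pos hjK, if_neg (not_lt.2 hjK), add_zero]
      -- pointwise
      have hp : ∀ n ∈ Finset.Ioc 0 (N - j), gw R T (ord n) (ord (n + j)) ≤
          tl R T u (ord n) (ord (n + j)) + ((∑ i ∈ Finset.range j,
            (if Bad R ε (n + i) then (1 : ℝ) else 0)) + (if ord n ≤ δ * T then (1 : ℝ) else 0) + η') := by
        intro n hn'
        rw [Finset.mem_Ioc] at hn'
        have hle1 : gw R T (ord n) (ord (n + j)) ≤ 1 := by
          unfold gw
          have h1 := g_le_one hR ((ord n - ord (n + j)) * Real.log T / (2 * Real.pi))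
          have h2 := ww_le (ord n - ord (n + j))
          have h3 := (ww_pos (ord n - ord (n + j))).le
          have h4 := fl_tr_nonneg hR ((ord n - ord (n + j)) * Real.log T / (2 * Real.pi))
          exact mul_le_one₀ h1 h3 h2
        have htl : 0 ≤ tl R T u (ord n) (ord (n + j)) := by
          unfold tl
          split_ifs
          · exact gw_nonneg hR _ _ _
          · exact le_rfl
        have hsum0 : ∀ i ∈ Finset.range j, (0 : ℝ) ≤ if Bad R ε (n + i) then (1 : ℝ) else 0 := by
          intro i _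
          split_ifs <;> norm_num
        have hs0 := Finset.sum_nonneg hsum0
        by_cases c1 : ord n ≤ δ * T
        · rw [if_pos c1]
          linarith
        · by_cases c2 : ∃ i < j, Bad R ε (n + i)
          · obtain ⟨i, hi, hbi⟩ := c2
            have h1 := Finset.single_le_sum hsum0 (Finset.mem_range.2 hi)
            rw [if_pos hbi] at h1
            have h2 : (0 : ℝ) ≤ if ord n ≤ δ * T then (1 : ℝ) else 0 := by split_ifs <;> norm_num
            linarith
          · push Not at c2
            have h1 := near n j hn'.1 hj.1 hjK (by omega) c2 (not_le.1 c1)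
            rw [if_neg c1]
            linarith
      refine (Finset.sum_le_sum hp).trans ?_
      rw [Finset.sum_add_distrib]
      apply add_le_add_right
      rw [Finset.sum_add_distrib, Finset.sum_add_distrib, hM1]
      have s1 : ∑ n ∈ Finset.Ioc 0 (N - j), ∑ i ∈ Finset.range j,
          (if Bad R ε (n + i) then (1 : ℝ) else 0) ≤ K * B := by
        rw [Finset.sum_comm]
        have h1 : ∀ i ∈ Finset.range j, ∑ n ∈ Finset.Ioc 0 (N - j),
            (if Bad R ε (n + i) then (1 : ℝ) else 0) ≤ B := by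
          intro i hi
          rw [Finset.mem_range] at hi
          rw [← Finset.sum_filter, Finset.sum_const, nsmul_eq_mul, mul_one]
          have h2 : ((Finset.Ioc 0 (N - j)).filter (fun n => Bad R ε (n + i))).card ≤ B := by
            rw [hB]
            refine Finset.card_le_card_of_injOn (fun n => n + i) ?_ ?_
            · intro n hn'
              rw [Finset.mem_coe, Finset.mem_filter, Finset.mem_Ioc] at hn'
              show n + i ∈ BT R ε T
              unfold BT
              rw [Finset.mem_filter, Finset.mem_Ioc, ← hN]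
              exact ⟨⟨by omega, by omega⟩, hn'.2⟩
            · intro n _ n' _ h
              simp only at h
              omega
          exact_mod_cast h2
        refine (Finset.sum_le_sum h1).trans ?_
        rw [Finset.sum_const, Finset.card_range, nsmul_eq_mul]
        have : (j : ℝ) ≤ K := by exact_mod_cast hjK
        exact mul_le_mul_of_nonneg_right this (Nat.cast_nonneg _)
      have s2 : ∑ n ∈ Finset.Ioc 0 (N - j), (if ord n ≤ δ * T then (1 : ℝ) else 0) ≤
          NZ (δ * T) := by
        rw [← Finset.sum_filter, Finset.sum_const, nsmul_eq_mul, mul_one]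
        have h2 : ((Finset.Ioc 0 (N - j)).filter (fun n => ord n ≤ δ * T)).card ≤
            (Finset.Ioc 0 (NZ (δ * T))).card := by
          apply Finset.card_le_card
          intro n hn'
          rw [Finset.mem_filter, Finset.mem_Ioc] at hn'
          rw [Finset.mem_Ioc]
          exact ⟨hn'.1.1, (SG.ord_le_iff hn'.1.1 _).1 hn'.2⟩
        rw [Nat.card_Ioc, Nat.sub_zero] at h2
        exact_mod_cast h2
      have s3 : ∑ n ∈ Finset.Ioc 0 (N - j), η' ≤ N * η' := by
        rw [Finset.sum_const, Nat.card_Ioc, Nat.sub_zero, nsmul_eq_mul]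
        have : ((N - j : ℕ) : ℝ) ≤ N := by exact_mod_cast Nat.sub_le _ _
        exact mul_le_mul_of_nonneg_right this hη'0.le
      linarith
    · rw [if_neg (not_le.2 hjK), if_pos hjK, zero_add]
      have hp : ∀ n ∈ Finset.Ioc 0 (N - j), gw R T (ord n) (ord (n + j)) ≤
          tl R T u (ord n) (ord (n + j)) + (if (ord (n + j) - ord n) * Real.log T /
            (2 * Real.pi) < u then (1 : ℝ) else 0) := by
        intro n hn'
        rw [Finset.mem_Ioc] at hn'
        have b2 : ord n ≤ ord (n + j) := SG.ord_mono (by omega) (Nat.le_add_right _ _)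
        obtain ⟨x, hx⟩ : ∃ x : ℝ, x = (ord (n + j) - ord n) * Real.log T / (2 * Real.pi) := ⟨_, rfl⟩
        have hx0 : 0 ≤ x := by
          rw [hx]
          have : 0 ≤ ord (n + j) - ord n := by linarith
          positivity
        have ex : (ord n - ord (n + j)) * Real.log T / (2 * Real.pi) = -x := by rw [hx]; ring
        rw [← hx]
        unfold tl
        rw [ex, abs_neg, abs_of_nonneg hx0]
        rcases lt_or_ge x u with h1 | h1
        · rw [if_neg (not_le.2 h1), if_pos h1, zero_add]
          unfold gw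
          rw [ex, fl_even]
          exact mul_le_one₀ (g_le_one hR x) (ww_pos _).le (ww_le _)
        · rw [if_pos h1, if_neg (not_lt.2 h1), add_zero]
      refine (Finset.sum_le_sum hp).trans ?_
      rw [Finset.sum_add_distrib, ← Finset.sum_filter _ (fun _ => (1 : ℝ)), Finset.sum_const,
        nsmul_eq_mul, mul_one]
      have := ha j hjK
      linarith
  -- summation
  have hPT : PT R T ≤ η / 4 * nT T + (K * M1 + N * (η / 8)) := by
    have h1 : PT R T ≤ ∑ j ∈ Finset.Ico 1 N, ((∑ n ∈ Finset.Ioc 0 (N - j),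
        tl R T u (ord n) (ord (n + j))) +
        ((if j ≤ K then M1 else 0) + (if K < j then N * a j else 0))) := by
      unfold PT PS
      rw [← hN]
      exact Finset.sum_le_sum hj
    rw [Finset.sum_add_distrib, Finset.sum_add_distrib] at h1
    have h2 : ∑ j ∈ Finset.Ico 1 N, ∑ n ∈ Finset.Ioc 0 (N - j), tl R T u (ord n) (ord (n + j)) ≤
        η / 4 * nT T := t1
    have h3 : ∑ j ∈ Finset.Ico 1 N, (if j ≤ K then M1 else 0) ≤ K * M1 := by
      rw [← Finset.sum_filter, Finset.sum_const, nsmul_eq_mul]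
      apply mul_le_mul_of_nonneg_right _ hM10
      have : ((Finset.Ico 1 N).filter (fun j => j ≤ K)).card ≤ (Finset.Ioc 0 K).card := by
        apply Finset.card_le_card
        intro j hj'
        rw [Finset.mem_filter, Finset.mem_Ico] at hj'
        rw [Finset.mem_Ioc]
        omega
      rw [Nat.card_Ioc, Nat.sub_zero] at this
      exact_mod_cast this
    have h4 : ∑ j ∈ Finset.Ico 1 N, (if K < j then (N : ℝ) * a j else 0) ≤ N * (η / 8) := by
      rw [← Finset.sum_filter]
      have h5 : ∑ j ∈ (Finset.Ico 1 N).filter (fun j => K < j), (N : ℝ) * a j ≤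
          ∑ j ∈ Finset.Ico (K + 1) N, (N : ℝ) * a j := by
        apply Finset.sum_le_sum_of_subset_of_nonneg
        · intro j hj'
          rw [Finset.mem_filter, Finset.mem_Ico] at hj'
          rw [Finset.mem_Ico]
          omega
        · intro j _ _
          exact mul_nonneg (Nat.cast_nonneg _) (ha0 j)
      refine h5.trans ?_
      rw [← Finset.mul_sum]
      exact mul_le_mul_of_nonneg_left (hasum N) (Nat.cast_nonneg _)
    linarith
  have hK' : (K : ℝ) * NZ (δ * T) ≤ η / 4 * nT T := by
    have h1 : (K : ℝ) * NZ (δ * T) ≤ K * (η / (4 * K) * nT T) :=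
      mul_le_mul_of_nonneg_left t2 hK0.le
    have e : (K : ℝ) * (η / (4 * K) * nT T) = η / 4 * nT T := by field_simp
    linarith
  have hK'' : (K : ℝ) * (N * η') ≤ η / 4 * nT T := by
    have e : (K : ℝ) * (N * η') = η / 8 * N := by rw [hη']; field_simp
    rw [e]
    nlinarith
  have hN8 : (N : ℝ) * (η / 8) ≤ η / 4 * nT T := by nlinarith
  rw [hM1] at hPT
  have hfinal : PT R T ≤ K * K * B + η * nT T := by nlinarith
  rw [div_le_iff₀ hn]
  have e : ((K : ℝ) * K * ((BT R ε T).card / nT T) + η) * nT T = K * K * (BT R ε T).card + η * nT T := by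
    field_simp
  rw [e, ← hB]
  exact hfinal

end Pool.Agent.Y763.AH
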