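import Pool.Agent.Y763.AH.D

/-! # The extremal property of lattice spacings -/

set_option autoImplicit false

open MeasureTheory Set Filter Topology
open Complex (I)

namespace Pool.Agent.Y763.AH

open Pool.Agent.Y749.Rig
open SG (ord NZ zmult ZS)

/-- the weighted integral of the form factor -/
noncomputable def JJ (R κ T : ℝ) : ℝ := ∫ α in κ..R, (R - α) * Fr T α

theorem lower (hRH : RiemannHypothesis) {R κ : ℝ} (hR : 1 ≤ R) (hκ : 0 < κ) (hκ1 : κ < 1)
    {ε : ℝ} (hε : 0 < ε) : ∀ᶠ T in atTop, jc R κ - ε ≤ JJ R κ T := by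
  have hR0 : 0 < R := by linarith
  have h1 := (J_lim hRH hR hκ hκ1).eventually (lt_mem_nhds (show jc R κ - ε < jc R κ by linarith))
  filter_upwards [h1, eventually_ge_atTop 10] with T h2 hT
  have hn := nT_pos hT
  have h3 := PT_nonneg hR0 T
  have h4 : 0 ≤ R ^ 2 * (PT R T / nT T) := by positivity
  unfold JJ
  linarith

theorem iff_PT (hRH : RiemannHypothesis) {R κ : ℝ} (hR : 1 ≤ R) (hκ : 0 < κ) (hκ1 : κ < 1)
    {l : Filter ℝ} (hl : l ≤ atTop) :
    Tendsto (JJ R κ) l (𝓝 (jc R κ)) ↔ Tendsto (fun T => PT R T / nT T) l (𝓝 0) := by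
  have hR0 : 0 < R := by linarith
  have h1 := (J_lim hRH hR hκ hκ1).mono_left hl
  constructor
  · intro h
    have h2 := (h.sub h1).const_mul (1 / R ^ 2)
    rw [sub_self, mul_zero] at h2
    refine h2.congr fun T => ?_
    unfold JJ
    field_simp
    ring
  · intro h
    have h2 := h1.add (h.const_mul (R ^ 2))
    rw [mul_zero, add_zero] at h2
    refine h2.congr fun T => ?_
    unfold JJ
    ring

theorem PT_iff (hRH : RiemannHypothesis) {R : ℝ} (hR : 0 < R) {l : Filter ℝ} (hl : l ≤ atTop) :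
    Tendsto (fun T => PT R T / nT T) l (𝓝 0) ↔
      ∀ ε : ℝ, 0 < ε → Tendsto (fun T => ((BT R ε T).card : ℝ) / NZ T) l (𝓝 0) := by
  -- change of the normalisation
  have hnorm : ∀ ε : ℝ, Tendsto (fun T => ((BT R ε T).card : ℝ) / NZ T) l (𝓝 0) ↔
      Tendsto (fun T => ((BT R ε T).card : ℝ) / nT T) l (𝓝 0) := by
    intro ε
    have h1 := NZ_lim.mono_left hl
    have h2 := h1.inv₀ one_ne_zero
    rw [inv_one] at h2
    have hpos : ∀ᶠ T in l, 0 < (NZ T : ℝ) := by
      filter_upwards [h1.eventually (lt_mem_nhds (show (0 : ℝ) < 1 by norm_num)),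
        hl (eventually_ge_atTop 10)] with T a1 a2
      have := nT_pos a2
      rwa [lt_div_iff₀ this, zero_mul] at a1
    constructor
    · intro h
      have h3 := h.mul h1
      rw [zero_mul] at h3
      refine h3.congr' ?_
      filter_upwards [hpos] with T hT
      field_simp
    · intro h
      have h3 := h.mul h2
      rw [zero_mul] at h3
      refine h3.congr' ?_
      filter_upwards [hpos, hl (eventually_ge_atTop 10)] with T hT a2
      have := nT_pos a2
      rw [inv_div]
      field_simp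
  constructor
  · intro h ε hε
    rw [hnorm, Metric.tendsto_nhds]
    intro η hη
    obtain ⟨c, hc, h1⟩ := D1 hR hε (η := η / 2) (by positivity)
    filter_upwards [hl h1, h.eventually (gt_mem_nhds (show (0 : ℝ) < c * (η / 2) by positivity)),
      hl (eventually_ge_atTop 10)] with T a1 a2 a3
    have hn := nT_pos a3
    rw [Real.dist_eq, sub_zero, abs_of_nonneg (by positivity)]
    have h2 : c * ((BT R ε T).card / nT T - η / 2) < c * (η / 2) := a1.trans_lt a2
    have h3 := lt_of_mul_lt_mul_left h2 hc.le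
    linarith
  · intro h
    rw [Metric.tendsto_nhds]
    intro η hη
    obtain ⟨ε, hε, C, hC, h1⟩ := D2 hRH hR (η := η / 2) (by positivity)
    have h2 := (hnorm ε).1 (h ε hε)
    filter_upwards [hl h1, h2.eventually (gt_mem_nhds (show (0 : ℝ) < η / (2 * C) by positivity)),
      hl (eventually_ge_atTop 10)] with T a1 a2 a3
    have hn := nT_pos a3
    have h3 := PT_nonneg hR T
    rw [Real.dist_eq, sub_zero, abs_of_nonneg (by positivity)]
    have h4 : C * ((BT R ε T).card / nT T) < C * (η / (2 * C)) := mul_lt_mul_of_pos_left a2 hC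
    have e : C * (η / (2 * C)) = η / 2 := by field_simp
    linarith

/-- **The extremal property of the lattice spacings.** -/
theorem main (hRH : RiemannHypothesis) {R κ : ℝ} (hR : 1 ≤ R) (hκ : 0 < κ) (hκ1 : κ < 1)
    {l : Filter ℝ} (hl : l ≤ atTop) :
    Tendsto (JJ R κ) l (𝓝 (jc R κ)) ↔
      ∀ ε : ℝ, 0 < ε → Tendsto (fun T => ((BT R ε T).card : ℝ) / NZ T) l (𝓝 0) :=
  (iff_PT hRH hR hκ hκ1 hl).trans (PT_iff hRH (by linarith) hl)

end Pool.Agent.Y763.AH
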